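import Mathlib

/-!
# Arithmetic schemes and abelian groups
-/

set_option autoImplicit false

open CategoryTheory CategoryTheory.Limits AlgebraicGeometry

namespace Pool.Agent.R387.EM

/-- A regular connected (or, what is the same, regular irreducible) scheme of Krull dimension `dim`,
proper over `Spec ℤ`. It may be flat over `ℤ` or a smooth proper variety over a finite field. -/
structure Var where
  /-- the underlying scheme -/
  X : Scheme.{0}
  /-- the structure morphism -/
  str : X ⟶ Spec (.of ℤ)
  /-- the Krull dimension -/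
  dim : ℕ
  krull : topologicalKrullDim X = dim
  regular : ∀ x : X, IsRegularLocalRing (X.presheaf.stalk x)
  proper : IsProper str
  irred : IrreducibleSpace X

/-- A class of arithmetic schemes. -/
structure VarClass where
  mem : Var → Prop

/-- The schemes in the class `S`. -/
structure VarClass.Obj (S : VarClass) where
  V : Var
  mem : S.mem V

/-- the Krull dimension -/
def VarClass.Obj.dim {S : VarClass} (X : S.Obj) : ℕ := X.V.dim

/-- An abelian group. -/
structure Ab where
  A : Type
  [g : AddCommGroup A]

attribute [instance] Ab.g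

/-- `A` is finitely generated. -/
def Ab.FG (A : Ab) : Prop := Module.Finite ℤ A.A

/-- `A = 0` -/
def Ab.IsZero (A : Ab) : Prop := Subsingleton A.A

/-- `A` is a rational vector space: multiplication by every positive integer is bijective. -/
def Ab.IsRational (A : Ab) : Prop := ∀ m : ℕ, 0 < m → Function.Bijective fun x : A.A => m • x

/-- `A` is isomorphic to the direct sum of the `B k`. -/
def Ab.SumOf (A : Ab) {ι : Type} (B : ι → Ab) : Prop := Nonempty (A.A ≃+ ∀ k, (B k).A)

theorem Ab.SumOf.fg_iff {A : Ab} {ι : Type} [Finite ι] {B : ι → Ab} (h : A.SumOf B) :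
    A.FG ↔ ∀ k, (B k).FG := by
  classical
  obtain ⟨e⟩ := h
  constructor
  · intro hA k
    have : Module.Finite ℤ A.A := hA
    exact Module.Finite.of_surjective
      ((LinearMap.proj k : (∀ k, (B k).A) →ₗ[ℤ] (B k).A) ∘ₗ e.toIntLinearEquiv.toLinearMap)
      ((Function.surjective_eval k).comp e.surjective)
  · intro hB
    have : ∀ k, Module.Finite ℤ (B k).A := hB
    exact Module.Finite.equiv e.symm.toIntLinearEquiv

theorem Ab.SumOf.isRational {A : Ab} {ι : Type} {B : ι → Ab} (h : A.SumOf B) (hA : A.IsRational)
    (k : ι) : (B k).IsRational := by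
  classical
  obtain ⟨e⟩ := h
  intro m hm
  constructor
  · intro x y hxy
    have h1 : m • e.symm (Pi.single k x) = m • e.symm (Pi.single k y) := by
      rw [← map_nsmul, ← map_nsmul, ← Pi.single_smul, ← Pi.single_smul]
      exact congrArg (fun z => e.symm (Pi.single k z)) hxy
    have h2 := e.symm.injective ((hA m hm).1 h1)
    exact Pi.single_injective k h2
  · intro z
    obtain ⟨a, ha⟩ := (hA m hm).2 (e.symm (Pi.single k z))
    refine ⟨e a k, ?_⟩
    have h1 : e (m • a) = Pi.single k z := by
      have h2 : m • a = e.symm (Pi.single k z) := ha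
      rw [h2, AddEquiv.apply_symm_apply]
    rw [map_nsmul] at h1
    have h2 := congrFun h1 k
    rwa [Pi.single_eq_same] at h2

theorem Ab.isZero_of_fg {A : Ab} (h : A.IsRational) (hA : A.FG) : A.IsZero := by
  have : Module.Finite ℤ A.A := hA
  obtain ⟨r, hr, h0⟩ := Submodule.exists_sub_one_mem_and_smul_eq_zero_of_fg_of_le_smul
    (Ideal.span {(2 : ℤ)}) (⊤ : Submodule ℤ A.A) this.1 (by
      intro x _
      obtain ⟨y, hy⟩ := (h 2 (by norm_num)).2 x
      have h1 : (2 : ℤ) • y ∈ Ideal.span {(2 : ℤ)} • (⊤ : Submodule ℤ A.A) :=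
        Submodule.smul_mem_smul (Ideal.mem_span_singleton_self 2) trivial
      have h2 : (2 : ℤ) • y = x := by
        rw [← hy]
        norm_cast
      rwa [h2] at h1)
  have hr0 : r ≠ 0 := by
    rintro rfl
    rw [Ideal.mem_span_singleton] at hr
    omega
  have h1 := (h r.natAbs (Int.natAbs_pos.2 hr0)).1
  refine ⟨fun x y => h1 ?_⟩
  have h2 : ∀ z : A.A, r.natAbs • z = 0 := by
    intro z
    have h3 := h0 z trivial
    rcases Int.natAbs_eq r with h4 | h4
    · rw [h4] at h3
      rwa [natCast_zsmul] at h3
    · rw [h4, neg_smul, neg_eq_zero] at h3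
      rwa [natCast_zsmul] at h3
  exact (h2 x).trans (h2 y).symm

end Pool.Agent.R387.EM
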