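import Mathlib
import Pool.Agent.R387.EM.Base

/-!
# Étale cohomology of the cycle complexes `ℤ^c(n)`, `n < 0`: weights and degrees
-/

set_option autoImplicit false

namespace Pool.Agent.R387.EM.Neg

variable {S : VarClass}

/-- Étale cohomology of cycle complexes, products with projective spaces and blow-ups. -/
structure Data (S : VarClass) where
  /-- `H X w i` is `H^i(X_et, ℤ^c(-w))` -/
  H : S.Obj → ℕ → ℤ → Ab
  /-- `Spec ℤ` -/
  pt : S.Obj
  /-- `prod X m = ℙ^m × X` -/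
  prod : S.Obj → ℕ → S.Obj
  /-- `Blow B X W c`: `B` is the blow-up of `X` along a closed subscheme isomorphic to `W`, of
  codimension `c + 1` -/
  Blow : S.Obj → S.Obj → S.Obj → ℕ → Prop

/-- The blow-up formula `H^i(B, ℤ^c(n)) = H^i(X, ℤ^c(n)) ⊕ ⨁ H^{i+2a}(W, ℤ^c(n-a))`, `0 < a ≤ c`,
for `n < 0`. -/
structure IsBlowUp (D : Data S) (B X W : S.Obj) (c : ℕ) : Prop where
  dim : B.dim = X.dim
  codim : X.dim = W.dim + c + 1
  coh : ∀ w i, 1 ≤ w → (D.H B w i).SumOf fun k : Option (Fin c) =>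
    k.elim (D.H X w i) fun a => D.H W (w + (a + 1)) (i + 2 * ((a : ℕ) + 1 : ℕ))

/-- The projective bundle formula `H^i(ℙ^m × X, ℤ^c(n)) = ⨁ H^{i+2k}(X, ℤ^c(n-k))`, `0 ≤ k ≤ m`, and the
blow-up formula, the embeddings in projective spaces of all sufficiently large dimensions, and the
finite generation for `Spec ℤ`. -/
structure IsData (D : Data S) : Prop where
  pt_fg : ∀ (w : ℕ) (i : ℤ), 1 ≤ w → (D.H D.pt w i).FG
  dim : ∀ X m, (D.prod X m).dim = X.dim + m
  coh : ∀ X m w i, 1 ≤ w →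
    (D.H (D.prod X m) w i).SumOf fun k : Fin (m + 1) => D.H X (w + k) (i + 2 * (k : ℕ))
  blowUp : ∀ {B X W : S.Obj} {c : ℕ}, D.Blow B X W c → IsBlowUp D B X W c
  embed : ∀ X : S.Obj, ∃ c₀ : ℕ, ∀ c ≥ c₀, ∃ B, D.Blow B (D.prod D.pt (X.dim + c)) X c

/-- The schemes obtained from projective spaces over `ℤ` by finitely many blow-ups along schemes in
`S`, flat or not flat over `ℤ`. -/
inductive Tower (D : Data S) : S.Obj → Prop
  | base (N : ℕ) : Tower D (D.prod D.pt N)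
  | blowUp {B X W : S.Obj} {c : ℕ} : Tower D X → D.Blow B X W c → Tower D B

/-- Q1 for `X` in the weight `n = -w`: `H^i(X_et, ℤ^c(n))` is finitely generated for `i ≤ -2n + 1`. -/
def Q1 (D : Data S) (X : S.Obj) (w : ℕ) : Prop := ∀ i : ℤ, i ≤ 2 * (w : ℤ) + 1 → (D.H X w i).FG

/-- `H^i(X_et, ℤ^c(n))`, `n = -w`, is finitely generated in the degrees
`-2n + 1 - φ(dim X) ≤ i ≤ -2n + 1`. -/
def NearTop (D : Data S) (φ : ℕ → ℕ) (X : S.Obj) (w : ℕ) : Prop :=
  ∀ i : ℤ, 2 * (w : ℤ) + 1 - φ X.dim ≤ i → i ≤ 2 * (w : ℤ) + 1 → (D.H X w i).FG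

/-- Q1 in the weight `n = -w` for all `X` in `S` is equivalent to Q1 for all `X` in `S` and all weights
`≤ n`, and to the finite generation in the degrees `-2n + 1 - φ(dim X) ≤ i ≤ -2n + 1` of the weight `n`,
for all `X` in `S`. -/
def OneWeight (D : Data S) (φ : ℕ → ℕ) (w : ℕ) : Prop :=
  [∀ X, Q1 D X w, ∀ X, ∀ v ≥ w, Q1 D X v, ∀ X, NearTop D φ X w].TFAE

/-- The following are equivalent: Q1 in the weight `n = -w` for all towers, Q1 in the weight `n - 1`
for all `X` in `S`, and the finite generation in the degrees `-2n + 1 - φ(dim B) ≤ i ≤ -2n + 1` of the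
weight `n` for all towers `B`. -/
def TowersIff (D : Data S) (φ : ℕ → ℕ) (w : ℕ) : Prop :=
  [∀ B, Tower D B → Q1 D B w, ∀ X, Q1 D X (w + 1), ∀ B, Tower D B → NearTop D φ B w].TFAE

variable {D : Data S}

/-- the group of weight `-w` and codegree `r` -/
def G (D : Data S) (X : S.Obj) (w : ℕ) (r : ℤ) : Ab := D.H X w (2 * (w : ℤ) + 1 - r)

theorem G_prod (h : IsData D) (X : S.Obj) (m w : ℕ) (r : ℤ) (hw : 1 ≤ w) :
    (G D (D.prod X m) w r).FG ↔ ∀ k : Fin (m + 1), (G D X (w + k) r).FG := by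
  unfold G
  rw [(h.coh X m w _ hw).fg_iff]
  refine forall_congr' fun k => ?_
  have h1 : 2 * (w : ℤ) + 1 - r + 2 * (k : ℕ) = 2 * ((w + k : ℕ) : ℤ) + 1 - r := by
    push_cast
    ring
  rw [h1]

theorem G_blow {B X W : S.Obj} {c : ℕ} (h : IsBlowUp D B X W c) (w : ℕ) (r : ℤ) (hw : 1 ≤ w) :
    (G D B w r).FG ↔ (G D X w r).FG ∧ ∀ a : Fin c, (G D W (w + (a + 1)) r).FG := by
  unfold G
  rw [(h.coh w _ hw).fg_iff]
  have h0 : ∀ a : Fin c, 2 * (w : ℤ) + 1 - r + 2 * ((a : ℕ) + 1 : ℕ) =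
      2 * ((w + (a + 1) : ℕ) : ℤ) + 1 - r := by
    intro a
    push_cast
    ring
  constructor
  · intro H
    refine ⟨H none, fun a => ?_⟩
    rw [← h0]
    exact H (some a)
  · rintro ⟨h1, h2⟩ (_ | a)
    · exact h1
    · change (D.H W (w + (a + 1)) (2 * (w : ℤ) + 1 - r + 2 * ((a : ℕ) + 1 : ℕ))).FG
      rw [h0]
      exact h2 a

theorem q1_iff_G (X : S.Obj) (w : ℕ) : Q1 D X w ↔ ∀ r : ℕ, (G D X w r).FG := by
  constructor
  · intro H r
    exact H _ (by omega)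
  · intro H i hi
    have h1 := H (2 * (w : ℤ) + 1 - i).toNat
    unfold G at h1
    rwa [Int.toNat_of_nonneg (by omega), sub_sub_cancel] at h1

theorem nearTop_iff_G (φ : ℕ → ℕ) (X : S.Obj) (w : ℕ) :
    NearTop D φ X w ↔ ∀ r : ℕ, r ≤ φ X.dim → (G D X w r).FG := by
  constructor
  · intro H r hr
    exact H _ (by omega) (by omega)
  · intro H i hi hi'
    have h1 := H (2 * (w : ℤ) + 1 - i).toNat (by omega)
    unfold G at h1
    rwa [Int.toNat_of_nonneg (by omega), sub_sub_cancel] at h1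

theorem exists_large {φ : ℕ → ℕ} (hφ : ¬ BddAbove (Set.range φ)) (K n : ℕ) :
    ∃ e, n ≤ e ∧ K ≤ φ e := by
  by_contra hc
  push Not at hc
  apply hφ
  refine ⟨K + ∑ i ∈ Finset.range n, φ i, ?_⟩
  rintro _ ⟨e, rfl⟩
  rcases le_or_gt n e with he | he
  · have := hc e he
    omega
  · have := Finset.single_le_sum (f := φ) (fun _ _ => Nat.zero_le _) (Finset.mem_range.2 he)
    omega

theorem oneWeight (h : IsData D) {φ : ℕ → ℕ} (hφ : ¬ BddAbove (Set.range φ)) {w : ℕ} (hw : 1 ≤ w) :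
    OneWeight D φ w := by
  unfold OneWeight
  tfae_have 2 → 1 := fun H X => H X w le_rfl
  tfae_have 1 → 3 := fun H X i _ hi => H X i hi
  tfae_have 3 → 2 := by
    intro H X v hv
    rw [q1_iff_G]
    intro r
    obtain ⟨e, he1, he2⟩ := exists_large hφ r (X.dim + v)
    have h1 := (nearTop_iff_G φ _ w).1 (H (D.prod X (e - X.dim))) r (by
      rw [h.dim, show X.dim + (e - X.dim) = e by omega]
      exact he2)
    have h2 := (G_prod h X (e - X.dim) w r hw).1 h1 ⟨v - w, by omega⟩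
    change (G D X (w + (v - w)) r).FG at h2
    rwa [show w + (v - w) = v by omega] at h2
  tfae_finish

/-- blow-ups of projective spaces of all large dimensions along `X` -/
theorem high_of_tower (h : IsData D) {w : ℕ} (hw : 1 ≤ w) (X : S.Obj) (v : ℕ) (hv : w < v) (r : ℤ) :
    ∃ e₀ : ℕ, ∀ e ≥ e₀, ∃ B, Tower D B ∧ B.dim = e ∧ ((G D B w r).FG → (G D X v r).FG) := by
  obtain ⟨c₀, hc₀⟩ := h.embed X
  refine ⟨X.dim + (c₀ + v) + 1, fun e he => ?_⟩
  obtain ⟨B, hB⟩ := hc₀ (e - X.dim - 1) (by omega)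
  have h1 := h.blowUp hB
  have h2 : B.dim = e := by
    rw [h1.dim, h1.codim]
    omega
  refine ⟨B, Tower.blowUp (Tower.base _) hB, h2, fun h3 => ?_⟩
  rw [G_blow h1 w r hw] at h3
  have h4 := h3.2 ⟨v - w - 1, by omega⟩
  change (G D X (w + (v - w - 1 + 1)) r).FG at h4
  rwa [show w + (v - w - 1 + 1) = v by omega] at h4

theorem tower_of_high (h : IsData D) {w : ℕ} (hw : 1 ≤ w) (r : ℕ)
    (H : ∀ (X : S.Obj) (v : ℕ), w < v → (G D X v r).FG) {B : S.Obj} (hB : Tower D B) :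
    (G D B w r).FG := by
  induction hB with
  | base N =>
    rw [G_prod h D.pt N w r hw]
    intro k
    exact h.pt_fg _ _ (by omega)
  | blowUp hX hb ih =>
    rw [G_blow (h.blowUp hb) w r hw]
    exact ⟨ih, fun a => H _ _ (by omega)⟩

theorem towersIff (h : IsData D) {φ : ℕ → ℕ} (hφ : ¬ BddAbove (Set.range φ)) {w : ℕ} (hw : 1 ≤ w) :
    TowersIff D φ w := by
  unfold TowersIff
  tfae_have 1 → 3 := fun H B hB i _ hi => H B hB i hi
  tfae_have 3 → 2 := by
    intro H X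
    rw [q1_iff_G]
    intro r
    obtain ⟨e₀, he⟩ := high_of_tower h hw X (w + 1) (by omega) (r : ℤ)
    obtain ⟨e, he1, he2⟩ := exists_large hφ r e₀
    obtain ⟨B, hB, hBe, h1⟩ := he e he1
    exact h1 ((nearTop_iff_G φ B w).1 (H B hB) r (by rw [hBe]; exact he2))
  tfae_have 2 → 1 := by
    intro H B hB
    rw [q1_iff_G]
    intro r
    refine tower_of_high h hw r (fun X v hv => ?_) hB
    have h1 : ∀ X, ∀ u ≥ w + 1, Q1 D X u :=
      ((oneWeight h hφ (w := w + 1) (by omega)).out 0 1).1 H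
    exact (q1_iff_G X v).1 (h1 X v (by omega)) r
  tfae_finish

theorem q1_iff (h : IsData D) {φ : ℕ → ℕ} (hφ : ¬ BddAbove (Set.range φ)) :
    (∀ X, ∀ w, 1 ≤ w → Q1 D X w) ↔ ∀ X, NearTop D φ X 1 :=
  (oneWeight h hφ le_rfl).out 1 2

end Pool.Agent.R387.EM.Neg
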