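import Mathlib
import Pool.Agent.R387.EM.Base

/-!
# Étale motivic cohomology in weights `≥ dim`: the range of degrees
-/

set_option autoImplicit false

namespace Pool.Agent.R387.EM.Range

variable {S : VarClass}

/-- Étale motivic cohomology and products with projective spaces. -/
structure Data (S : VarClass) where
  /-- `H X n p` is the étale motivic cohomology `H^p(X_et, ℤ(n))` -/
  H : S.Obj → ℕ → ℤ → Ab
  /-- `prod X m = ℙ^m × X` -/
  prod : S.Obj → ℕ → S.Obj

/-- The projective bundle formula in the weights `≥ dim`, and the fact that `H^p(X_et, ℤ(d))` is a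
rational vector space for `p < 0` and `d = dim X` (see the problem file). -/
structure IsData (D : Data S) : Prop where
  dim : ∀ X m, (D.prod X m).dim = X.dim + m
  coh : ∀ X m n p, X.dim + m ≤ n →
    (D.H (D.prod X m) n p).SumOf fun k : Fin (m + 1) => D.H X (n - k) (p - 2 * (k : ℕ))
  neg : ∀ X p, p < 0 → (D.H X X.dim p).IsRational

/-- Q1 for `X`: `H^p(X_et, ℤ(d))` is finitely generated for `0 ≤ p ≤ 2 d`, `d = dim X`. -/
def Q1 (D : Data S) (X : S.Obj) : Prop :=
  ∀ p : ℤ, 0 ≤ p → p ≤ 2 * (X.dim : ℤ) → (D.H X X.dim p).FG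

/-- Q1 for all schemes of dimension `N` (in the class `S`) is equivalent to the following statement on
all schemes `X` of dimension `≤ N` and all weights `dim X ≤ n ≤ N`: the group `H^p(X_et, ℤ(n))` is
finitely generated for `2 n - 2 N ≤ p ≤ 2 n`, and it is zero if moreover `p < 0`. -/
def InDimension (D : Data S) (N : ℕ) : Prop :=
  (∀ X : S.Obj, X.dim = N → Q1 D X) ↔
    ∀ (X : S.Obj) (n : ℕ), X.dim ≤ n → n ≤ N → ∀ p : ℤ, 2 * (n : ℤ) - 2 * N ≤ p → p ≤ 2 * (n : ℤ) →
      (D.H X n p).FG ∧ (p < 0 → (D.H X n p).IsZero)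

/-- For all `X`, all weights `n ≥ dim X` and all `p ≤ 2 n` the group `H^p(X_et, ℤ(n))` is finitely
generated, and it is zero for `p < 0`. -/
def AllWeights (D : Data S) : Prop :=
  ∀ (X : S.Obj) (n : ℕ), X.dim ≤ n → ∀ p : ℤ, p ≤ 2 * (n : ℤ) →
    (D.H X n p).FG ∧ (p < 0 → (D.H X n p).IsZero)

/-- Let `φ` be an unbounded function. If for all `X` of dimension `d` the groups `H^p(X_et, ℤ(d))` are
finitely generated in the degrees `2 d - φ(d) ≤ p ≤ 2 d`, then all statements of `AllWeights` hold. -/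
def NearTop (D : Data S) (φ : ℕ → ℕ) : Prop :=
  (∀ X : S.Obj, ∀ p : ℤ, 2 * (X.dim : ℤ) - φ X.dim ≤ p → p ≤ 2 * (X.dim : ℤ) →
    (D.H X X.dim p).FG) ↔ AllWeights D

variable {D : Data S}

theorem isRational (h : IsData D) (X : S.Obj) {n : ℕ} {p : ℤ} (hn : X.dim ≤ n) (hp : p < 0) :
    (D.H X n p).IsRational := by
  have hd : (D.prod X (n - X.dim)).dim = n := by rw [h.dim]; omega
  have h1 := h.neg (D.prod X (n - X.dim)) p hp
  rw [hd] at h1
  have h2 := (h.coh X (n - X.dim) n p (by omega)).isRational h1 ⟨0, by omega⟩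
  have h3 : p - 2 * ((0 : ℕ) : ℤ) = p := by simp
  change (D.H X (n - 0) (p - 2 * ((0 : ℕ) : ℤ))).IsRational at h2
  rwa [h3] at h2

/-- the summand of weight `n` in the product with a projective space -/
theorem summand (h : IsData D) {X : S.Obj} {n m : ℕ} {p : ℤ} (hn : X.dim ≤ n) (hm : n ≤ X.dim + m)
    (hfg : (D.H (D.prod X m) (X.dim + m) (p + 2 * ((X.dim + m - n : ℕ) : ℤ))).FG) :
    (D.H X n p).FG ∧ (p < 0 → (D.H X n p).IsZero) := by
  have h1 := (h.coh X m (X.dim + m) (p + 2 * ((X.dim + m - n : ℕ) : ℤ)) le_rfl).fg_iff.1 hfg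
    ⟨X.dim + m - n, by omega⟩
  have h2 : X.dim + m - (X.dim + m - n) = n := by omega
  have h3 : (D.H X n p).FG := by
    have h4 : p + 2 * ((X.dim + m - n : ℕ) : ℤ) - 2 * ((X.dim + m - n : ℕ) : ℤ) = p := by ring
    change (D.H X (X.dim + m - (X.dim + m - n))
      (p + 2 * ((X.dim + m - n : ℕ) : ℤ) - 2 * ((X.dim + m - n : ℕ) : ℤ))).FG at h1
    rwa [h2, h4] at h1
  exact ⟨h3, fun hp => Ab.isZero_of_fg (isRational h X hn hp) h3⟩

theorem inDimension (h : IsData D) (N : ℕ) : InDimension D N := by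
  constructor
  · intro H X n hn hN p h1 h2
    refine summand h (m := N - X.dim) hn (by omega) ?_
    have h3 := H (D.prod X (N - X.dim)) (by rw [h.dim]; omega)
      (p + 2 * ((X.dim + (N - X.dim) - n : ℕ) : ℤ)) (by omega) (by rw [h.dim]; omega)
    rwa [h.dim] at h3
  · intro H X hX p h1 h2
    subst hX
    exact (H X X.dim le_rfl le_rfl p (by omega) h2).1

theorem exists_large {φ : ℕ → ℕ} (hφ : ¬ BddAbove (Set.range φ)) (K n : ℕ) :
    ∃ e, n ≤ e ∧ K ≤ φ e := by
  by_contra hc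
  push Not at hc
  apply hφ
  refine ⟨K + ∑ i ∈ Finset.range n, φ i, ?_⟩
  rintro _ ⟨e, rfl⟩
  rcases le_or_gt n e with he | he
  · have := hc e he
    omega
  · have := Finset.single_le_sum (f := φ) (fun _ _ => Nat.zero_le _) (Finset.mem_range.2 he)
    omega

theorem nearTop (h : IsData D) {φ : ℕ → ℕ} (hφ : ¬ BddAbove (Set.range φ)) : NearTop D φ := by
  constructor
  · intro H X n hn p hp
    obtain ⟨e, he1, he2⟩ := exists_large hφ (2 * n - p).toNat n
    refine summand h (m := e - X.dim) hn (by omega) ?_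
    have hd : (D.prod X (e - X.dim)).dim = e := by rw [h.dim]; omega
    have h3 := H (D.prod X (e - X.dim)) (p + 2 * ((X.dim + (e - X.dim) - n : ℕ) : ℤ))
      (by rw [hd]; omega) (by rw [hd]; omega)
    have h4 : X.dim + (e - X.dim) = e := by omega
    rw [h4]
    rwa [hd, h4] at h3
  · intro H X p _ hp
    exact (H X X.dim le_rfl p hp).1

theorem q1_iff (h : IsData D) : (∀ X, Q1 D X) ↔ AllWeights D := by
  have hb : ¬ BddAbove (Set.range fun d : ℕ => 2 * d) := by
    rintro ⟨K, hK⟩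
    have h0 : 2 * (K + 1) ≤ K := hK ⟨K + 1, rfl⟩
    omega
  have h1 := nearTop h hb
  unfold NearTop at h1
  rw [← h1]
  refine forall_congr' fun X => forall_congr' fun p => ?_
  have h2 : 2 * (X.dim : ℤ) - ((2 * X.dim : ℕ) : ℤ) ≤ p ↔ 0 ≤ p := by omega
  exact imp_congr_left h2.symm

end Pool.Agent.R387.EM.Range
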