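import Mathlib
import Pool.Agent.R387.EM.Base

/-!
# Étale motivic cohomology in weights `≥ dim`: blow-ups of projective spaces
-/

set_option autoImplicit false

namespace Pool.Agent.R387.EM.Towers

variable {S : VarClass}

/-- Étale motivic cohomology, products with projective spaces and blow-ups. -/
structure Data (S : VarClass) where
  /-- `H X n p` is the étale motivic cohomology `H^p(X_et, ℤ(n))` -/
  H : S.Obj → ℕ → ℤ → Ab
  /-- `Spec ℤ` -/
  pt : S.Obj
  /-- `prod X m = ℙ^m × X` -/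
  prod : S.Obj → ℕ → S.Obj
  /-- `Blow B X W c`: `B` is the blow-up of `X` along a closed subscheme isomorphic to `W`, of
  codimension `c + 1` -/
  Blow : S.Obj → S.Obj → S.Obj → ℕ → Prop

/-- The blow-up formula in the weights `n ≥ dim X`:
`H^p(B, n) = H^p(X, n) ⊕ ⨁ H^{p-2a}(W, n-a)`, `0 < a ≤ c`. -/
structure IsBlowUp (D : Data S) (B X W : S.Obj) (c : ℕ) : Prop where
  dim : B.dim = X.dim
  codim : X.dim = W.dim + c + 1
  coh : ∀ n p, X.dim ≤ n → (D.H B n p).SumOf fun k : Option (Fin c) =>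
    k.elim (D.H X n p) fun a => D.H W (n - (a + 1)) (p - 2 * ((a : ℕ) + 1 : ℕ))

/-- The projective bundle formula and the blow-up formula in the weights `≥ dim`, the embeddings in
projective spaces of all sufficiently large dimensions, the finite generation for `Spec ℤ`, and the fact
that `H^p(X_et, ℤ(d))` is a rational vector space for `p < 0` and `d = dim X`. -/
structure IsData (D : Data S) : Prop where
  pt_dim : D.pt.dim = 1
  pt_fg : ∀ (n : ℕ) (p : ℤ), 1 ≤ n → p ≤ 2 * (n : ℤ) → (D.H D.pt n p).FG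
  dim : ∀ X m, (D.prod X m).dim = X.dim + m
  coh : ∀ X m n p, X.dim + m ≤ n →
    (D.H (D.prod X m) n p).SumOf fun k : Fin (m + 1) => D.H X (n - k) (p - 2 * (k : ℕ))
  blowUp : ∀ {B X W : S.Obj} {c : ℕ}, D.Blow B X W c → IsBlowUp D B X W c
  embed : ∀ X : S.Obj, ∃ c₀ : ℕ, ∀ c ≥ c₀, ∃ B, D.Blow B (D.prod D.pt (X.dim + c)) X c
  neg : ∀ X p, p < 0 → (D.H X X.dim p).IsRational

/-- The schemes obtained from projective spaces over `ℤ` by finitely many blow-ups along schemes in
`S`, flat or not flat over `ℤ`. -/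
inductive Tower (D : Data S) : S.Obj → Prop
  | base (N : ℕ) : Tower D (D.prod D.pt N)
  | blowUp {B X W : S.Obj} {c : ℕ} : Tower D X → D.Blow B X W c → Tower D B

/-- Q1 for `X`: `H^p(X_et, ℤ(d))` is finitely generated for all `p ≤ 2 d`, `d = dim X`. -/
def Q1 (D : Data S) (X : S.Obj) : Prop := ∀ p : ℤ, p ≤ 2 * (X.dim : ℤ) → (D.H X X.dim p).FG

/-- For all `X` in `S`, all weights `n > dim X` and all `p ≤ 2 n` the group `H^p(X_et, ℤ(n))` is
finitely generated, and it is zero for `p < 0`. -/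
def HighWeights (D : Data S) : Prop :=
  ∀ (X : S.Obj) (n : ℕ), X.dim < n → ∀ p : ℤ, p ≤ 2 * (n : ℤ) →
    (D.H X n p).FG ∧ (p < 0 → (D.H X n p).IsZero)

/-- Q1 for all towers of blow-ups is equivalent to `HighWeights`. -/
def TowersIff (D : Data S) : Prop := (∀ B, Tower D B → Q1 D B) ↔ HighWeights D

/-- For all towers `B` the groups `H^p(B_et, ℤ(d))`, `d = dim B`, are finitely generated in the degrees
`2 d - φ(d) ≤ p ≤ 2 d`. -/
def NearTop (D : Data S) (φ : ℕ → ℕ) : Prop :=
  ∀ B, Tower D B → ∀ p : ℤ, 2 * (B.dim : ℤ) - φ B.dim ≤ p → p ≤ 2 * (B.dim : ℤ) →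
    (D.H B B.dim p).FG

/-- One codegree: the groups `H^{2d-r}(B_et, ℤ(d))`, `d = dim B`, are finitely generated for all towers
`B` if and only if the groups `H^{2n-r}(X_et, ℤ(n))` are finitely generated for all `X` in `S` and all
`n > dim X`. -/
def OneCodegree (D : Data S) (r : ℕ) : Prop :=
  (∀ B, Tower D B → (D.H B B.dim (2 * (B.dim : ℤ) - r)).FG) ↔
    ∀ (X : S.Obj) (n : ℕ), X.dim < n → (D.H X n (2 * (n : ℤ) - r)).FG

/-- If Q1 holds for all towers, then Q1 is invariant under blow-ups and under products with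
projective spaces. -/
def Invariance (D : Data S) : Prop := (∀ B, Tower D B → Q1 D B) →
  (∀ (B X W : S.Obj) (c : ℕ), D.Blow B X W c → (Q1 D B ↔ Q1 D X)) ∧
    ∀ (X : S.Obj) (m : ℕ), Q1 D (D.prod X m) ↔ Q1 D X

variable {D : Data S}

theorem isRational (h : IsData D) (X : S.Obj) {n : ℕ} {p : ℤ} (hn : X.dim ≤ n) (hp : p < 0) :
    (D.H X n p).IsRational := by
  have hd : (D.prod X (n - X.dim)).dim = n := by rw [h.dim]; omega
  have h1 := h.neg (D.prod X (n - X.dim)) p hp
  rw [hd] at h1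
  have h2 := (h.coh X (n - X.dim) n p (by omega)).isRational h1 ⟨0, by omega⟩
  have h3 : p - 2 * ((0 : ℕ) : ℤ) = p := by simp
  change (D.H X (n - 0) (p - 2 * ((0 : ℕ) : ℤ))).IsRational at h2
  rwa [h3] at h2

/-- the group of weight `n` and codegree `r` -/
def G (D : Data S) (X : S.Obj) (n : ℕ) (r : ℤ) : Ab := D.H X n (2 * (n : ℤ) - r)

theorem G_prod (h : IsData D) (X : S.Obj) (m n : ℕ) (r : ℤ) (hn : X.dim + m ≤ n) :
    (G D (D.prod X m) n r).FG ↔ ∀ k : Fin (m + 1), (G D X (n - k) r).FG := by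
  unfold G
  rw [(h.coh X m n _ hn).fg_iff]
  refine forall_congr' fun k => ?_
  have hk : (k : ℕ) ≤ n := by have := k.2; omega
  have h1 : 2 * (n : ℤ) - r - 2 * (k : ℕ) = 2 * ((n - k : ℕ) : ℤ) - r := by
    rw [Nat.cast_sub hk]
    ring
  rw [h1]

theorem G_blow {B X W : S.Obj} {c : ℕ} (h : IsBlowUp D B X W c) (n : ℕ) (r : ℤ) (hn : X.dim ≤ n) :
    (G D B n r).FG ↔ (G D X n r).FG ∧ ∀ a : Fin c, (G D W (n - (a + 1)) r).FG := by
  unfold G
  rw [(h.coh n _ hn).fg_iff]
  have h0 : ∀ a : Fin c, 2 * (n : ℤ) - r - 2 * ((a : ℕ) + 1 : ℕ) =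
      2 * ((n - (a + 1) : ℕ) : ℤ) - r := by
    intro a
    have ha : (a : ℕ) + 1 ≤ n := by
      have := a.2
      have := h.codim
      omega
    rw [Nat.cast_sub ha]
    push_cast
    ring
  constructor
  · intro H
    refine ⟨H none, fun a => ?_⟩
    rw [← h0]
    exact H (some a)
  · rintro ⟨h1, h2⟩ (_ | a)
    · exact h1
    · change (D.H W (n - (a + 1)) (2 * (n : ℤ) - r - 2 * ((a : ℕ) + 1 : ℕ))).FG
      rw [h0]
      exact h2 a

theorem G_pt (h : IsData D) {n r : ℕ} (hn : 1 ≤ n) : (G D D.pt n r).FG :=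
  h.pt_fg n _ hn (by omega)

/-- blow-ups of projective spaces of all large dimensions along `W` -/
theorem high_of_tower (h : IsData D) {W : S.Obj} {n : ℕ} (hn : W.dim < n) (r : ℤ) :
    ∃ e₀ : ℕ, ∀ e ≥ e₀, ∃ B, Tower D B ∧ B.dim = e ∧ ((G D B B.dim r).FG → (G D W n r).FG) := by
  obtain ⟨c₀, hc₀⟩ := h.embed W
  refine ⟨W.dim + (c₀ + n) + 1, fun e he => ?_⟩
  obtain ⟨B, hB⟩ := hc₀ (e - W.dim - 1) (by omega)
  have h1 := h.blowUp hB
  have h2 : B.dim = e := by
    rw [h1.dim, h1.codim]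
    omega
  refine ⟨B, Tower.blowUp (Tower.base _) hB, h2, fun h3 => ?_⟩
  rw [G_blow h1 B.dim r (by rw [h1.dim])] at h3
  have h4 := h3.2 ⟨e - n - 1, by omega⟩
  change (G D W (B.dim - (e - n - 1 + 1)) r).FG at h4
  rwa [h2, show e - (e - n - 1 + 1) = n by omega] at h4

theorem tower_of_high (h : IsData D) (r : ℕ)
    (H : ∀ (X : S.Obj) (n : ℕ), X.dim < n → (G D X n r).FG) {B : S.Obj} (hB : Tower D B) :
    (G D B B.dim r).FG := by
  induction hB with
  | base N =>
    rw [G_prod h D.pt N _ r (by rw [h.dim])]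
    intro k
    refine G_pt h ?_
    have := k.2
    rw [h.dim, h.pt_dim]
    omega
  | @blowUp B X W c hX hb ih =>
    have h1 := h.blowUp hb
    rw [G_blow h1 B.dim r (by rw [h1.dim])]
    rw [h1.dim]
    refine ⟨ih, fun a => H W _ ?_⟩
    have := a.2
    rw [h1.codim]
    omega

theorem oneCodegree (h : IsData D) (r : ℕ) : OneCodegree D r := by
  constructor
  · intro H X n hn
    obtain ⟨e₀, he⟩ := high_of_tower h hn (r : ℤ)
    obtain ⟨B, hB, -, h1⟩ := he e₀ le_rfl
    exact h1 (H B hB)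
  · intro H B hB
    exact tower_of_high h r H hB

theorem exists_large {φ : ℕ → ℕ} (hφ : ¬ BddAbove (Set.range φ)) (K n : ℕ) :
    ∃ e, n ≤ e ∧ K ≤ φ e := by
  by_contra hc
  push Not at hc
  apply hφ
  refine ⟨K + ∑ i ∈ Finset.range n, φ i, ?_⟩
  rintro _ ⟨e, rfl⟩
  rcases le_or_gt n e with he | he
  · have := hc e he
    omega
  · have := Finset.single_le_sum (f := φ) (fun _ _ => Nat.zero_le _) (Finset.mem_range.2 he)
    omega

theorem nearTop_iff (h : IsData D) {φ : ℕ → ℕ} (hφ : ¬ BddAbove (Set.range φ)) :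
    NearTop D φ ↔ HighWeights D := by
  constructor
  · intro H X n hn p hp
    have h0 : (D.H X n p).FG := by
      obtain ⟨e₀, he⟩ := high_of_tower h hn (2 * (n : ℤ) - p)
      obtain ⟨e, he1, he2⟩ := exists_large hφ (2 * n - p).toNat e₀
      obtain ⟨B, hB, hBe, h1⟩ := he e he1
      have h2 := h1 (H B hB _ (by rw [hBe]; omega) (by omega))
      unfold G at h2
      rwa [sub_sub_cancel] at h2
    exact ⟨h0, fun hp' => Ab.isZero_of_fg (isRational h X hn.le hp') h0⟩
  · intro H B hB p _ hp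
    have h1 := tower_of_high h (2 * (B.dim : ℤ) - p).toNat
      (fun X n hn => (H X n hn _ (by omega)).1) hB
    unfold G at h1
    rwa [Int.toNat_of_nonneg (by omega), sub_sub_cancel] at h1

theorem towersIff (h : IsData D) : TowersIff D := by
  have hb : ¬ BddAbove (Set.range fun d : ℕ => d) := by
    rintro ⟨K, hK⟩
    have h0 : K + 1 ≤ K := hK ⟨K + 1, rfl⟩
    omega
  constructor
  · intro H
    exact (nearTop_iff h hb).1 fun B hB p _ hp => H B hB p hp
  · intro H B hB p hp
    have h1 := tower_of_high h (2 * (B.dim : ℤ) - p).toNat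
      (fun X n hn => (H X n hn _ (by omega)).1) hB
    unfold G at h1
    rwa [Int.toNat_of_nonneg (by omega), sub_sub_cancel] at h1

theorem q1_iff_G (X : S.Obj) : Q1 D X ↔ ∀ r : ℕ, (G D X X.dim r).FG := by
  constructor
  · intro H r
    exact H _ (by omega)
  · intro H p hp
    have h1 := H (2 * (X.dim : ℤ) - p).toNat
    unfold G at h1
    rwa [Int.toNat_of_nonneg (by omega), sub_sub_cancel] at h1

theorem invariance (h : IsData D) : Invariance D := by
  intro H
  have hW : ∀ (X : S.Obj) (n : ℕ), X.dim < n → ∀ r : ℕ, (G D X n r).FG :=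
    fun X n hn r => ((towersIff h).1 H X n hn _ (by omega)).1
  constructor
  · intro B X W c hb
    have h1 := h.blowUp hb
    rw [q1_iff_G, q1_iff_G]
    refine forall_congr' fun r => ?_
    rw [h1.dim, G_blow h1 X.dim r le_rfl]
    refine and_iff_left fun a => hW W _ ?_ r
    have := a.2
    rw [h1.codim]
    omega
  · intro X m
    rw [q1_iff_G, q1_iff_G]
    refine forall_congr' fun r => ?_
    rw [h.dim, G_prod h X m _ r le_rfl]
    constructor
    · intro H1
      have h1 := H1 (Fin.last m)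
      rwa [Fin.val_last, Nat.add_sub_cancel] at h1
    · intro H1 k
      rcases eq_or_ne k (Fin.last m) with rfl | hk
      · rw [Fin.val_last, Nat.add_sub_cancel]
        exact H1
      · refine hW X _ ?_ r
        have h1 := Fin.val_lt_last hk
        omega

end Pool.Agent.R387.EM.Towers
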